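import Pool.Agent.Work.MP_e08233_an.Asm4
import Pool.Agent.Work.MP_e08233_an.Final

/-!
# Problem MP_e08233_an, question Q1: the answer is no

For every integer `t ≥ 0` there is a proper holomorphic map from the unit ball of `ℂ^2` to the unit
ball of some `ℂ^N`, `N > 2`, which is `C^t` up to the boundary and is not rational.  The
construction is the one of `Pool.Agent.Work.MP_e08233_an` (joint work of the team).
-/

set_option autoImplicit false

open Metric

namespace Pool.Agent.Results.MP_e08233_an.NonRationalSmoothBallMaps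

/-- `f` is a proper holomorphic map from the open unit ball of `ℂ^n` to the open unit ball of
`ℂ^N`: it maps the ball to the ball, it is complex differentiable on the ball, and the set of the
`z` in the ball with `f z ∈ K` is compact for every compact subset `K` of the target ball.
(Only the values of `f` on the open ball matter.) -/
structure IsProperBallMap {n N : ℕ}
    (f : EuclideanSpace ℂ (Fin n) → EuclideanSpace ℂ (Fin N)) : Prop where
  mapsTo : Set.MapsTo f (ball 0 1) (ball 0 1)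
  holo : DifferentiableOn ℂ f (ball 0 1)
  proper : ∀ K : Set (EuclideanSpace ℂ (Fin N)), K ⊆ ball 0 1 → IsCompact K →
    IsCompact {z : EuclideanSpace ℂ (Fin n) | z ∈ ball 0 1 ∧ f z ∈ K}

/-- Iterated partial derivatives: `pd f [v₁, …, v_k]` is `∂_{v₁} ⋯ ∂_{v_k} f`, where
`(∂_v h) z` is the derivative of `s ↦ h (z + s v)` at `s = 0`, `s` real.  The directions
`v = e_j` and `v = i e_j` give the partial derivatives with respect to the real coordinates
`x_j` and `y_j`, where `z_j = x_j + i y_j`. -/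
noncomputable def pd {n N : ℕ} (f : EuclideanSpace ℂ (Fin n) → EuclideanSpace ℂ (Fin N)) :
    List (EuclideanSpace ℂ (Fin n)) → EuclideanSpace ℂ (Fin n) → EuclideanSpace ℂ (Fin N)
  | [] => f
  | v :: l => fun z => lineDeriv ℝ (pd f l) z v

/-- `f` is `C^t` up to the boundary: `f` and all its partial derivatives of order at most `t`
(in all directions) extend continuously from the open ball to the closed ball. -/
def IsCtUpToBoundary {n N : ℕ} (t : ℕ)
    (f : EuclideanSpace ℂ (Fin n) → EuclideanSpace ℂ (Fin N)) : Prop :=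
  ∀ l : List (EuclideanSpace ℂ (Fin n)), l.length ≤ t →
    ∃ g : EuclideanSpace ℂ (Fin n) → EuclideanSpace ℂ (Fin N),
      ContinuousOn g (closedBall 0 1) ∧ ∀ z ∈ ball (0 : EuclideanSpace ℂ (Fin n)) 1,
        g z = pd f l z

/-- `f` is rational: on the ball every component is `p_j / q` with polynomials `p_j`, `q`, where
`q` has no zeros on the closed ball. -/
def IsRational {n N : ℕ} (f : EuclideanSpace ℂ (Fin n) → EuclideanSpace ℂ (Fin N)) : Prop :=
  ∃ (p : Fin N → MvPolynomial (Fin n) ℂ) (q : MvPolynomial (Fin n) ℂ),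
    (∀ z ∈ closedBall (0 : EuclideanSpace ℂ (Fin n)) 1,
      MvPolynomial.eval (fun i => z i) q ≠ 0) ∧
    ∀ z ∈ ball (0 : EuclideanSpace ℂ (Fin n)) 1, ∀ j : Fin N,
      f z j = MvPolynomial.eval (fun i => z i) (p j) / MvPolynomial.eval (fun i => z i) q

/-- The weakest notion of rationality: `f_j q = p_j` on the ball with polynomials `p_j` and one
polynomial `q ≠ 0` (which may have zeros anywhere). -/
def IsWeaklyRational {n N : ℕ} (f : EuclideanSpace ℂ (Fin n) → EuclideanSpace ℂ (Fin N)) :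
    Prop :=
  ∃ (p : Fin N → MvPolynomial (Fin n) ℂ) (q : MvPolynomial (Fin n) ℂ), q ≠ 0 ∧
    ∀ z ∈ ball (0 : EuclideanSpace ℂ (Fin n)) 1, ∀ j : Fin N,
      f z j * MvPolynomial.eval (fun i => z i) q = MvPolynomial.eval (fun i => z i) (p j)

section boundary

variable {n N : ℕ}

theorem pd_ext (t : ℕ) (f : EuclideanSpace ℂ (Fin n) → EuclideanSpace ℂ (Fin N))
    (hf : ContDiffOn ℝ t f (closedBall 0 1)) :
    ∀ (l : List (EuclideanSpace ℂ (Fin n))), l.length ≤ t →
      ∃ g : EuclideanSpace ℂ (Fin n) → EuclideanSpace ℂ (Fin N),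
        ContDiffOn ℝ ((t - l.length : ℕ) : WithTop ℕ∞) g (closedBall 0 1) ∧
        ∀ z ∈ ball (0 : EuclideanSpace ℂ (Fin n)) 1, g z = pd f l z := by
  intro l
  induction l with
  | nil => exact fun _ => ⟨f, hf, fun z _ => rfl⟩
  | cons v l ih =>
    intro hl
    rw [List.length_cons] at hl
    obtain ⟨g, hg, he⟩ := ih (by omega)
    have hud : UniqueDiffOn ℝ (closedBall (0 : EuclideanSpace ℂ (Fin n)) 1) := by
      refine uniqueDiffOn_convex (convex_closedBall _ _) ⟨0, ?_⟩
      rw [interior_closedBall _ one_ne_zero]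
      exact mem_ball_self one_pos
    have hm : t - l.length = (t - (l.length + 1)) + 1 := by omega
    refine ⟨fun z => fderivWithin ℝ g (closedBall 0 1) z v, ?_, ?_⟩
    · have h1 : ContDiffOn ℝ ((t - (l.length + 1) : ℕ) : WithTop ℕ∞)
          (fderivWithin ℝ g (closedBall 0 1)) (closedBall 0 1) := by
        refine hg.fderivWithin hud ?_
        rw [hm]
        push_cast
        exact le_rfl
      exact h1.clm_apply contDiffOn_const
    · intro z hz
      have hz' : closedBall (0 : EuclideanSpace ℂ (Fin n)) 1 ∈ nhds z :=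
        Filter.mem_of_superset (isOpen_ball.mem_nhds hz) ball_subset_closedBall
      have hev : pd f l =ᶠ[nhds z] g := by
        filter_upwards [isOpen_ball.mem_nhds hz] with y hy
        exact (he y hy).symm
      have hd : DifferentiableAt ℝ g z := by
        have h2 : ContDiffAt ℝ ((t - l.length : ℕ) : WithTop ℕ∞) g z := hg.contDiffAt hz'
        refine h2.differentiableAt ?_
        rw [hm]
        simp
      change fderivWithin ℝ g (closedBall 0 1) z v = lineDeriv ℝ (pd f l) z v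
      rw [hev.lineDeriv_eq, hd.lineDeriv_eq_fderiv, fderivWithin_of_mem_nhds hz']

theorem ctUp (t : ℕ) (f : EuclideanSpace ℂ (Fin n) → EuclideanSpace ℂ (Fin N))
    (hf : ContDiffOn ℝ t f (closedBall 0 1)) : IsCtUpToBoundary t f := by
  intro l hl
  obtain ⟨g, hg, he⟩ := pd_ext t f hf l hl
  exact ⟨g, hg.continuousOn, he⟩

end boundary

/-- padding with zeros -/
theorem pad (t : ℕ) : ∃ (N : ℕ) (_ : 2 ≤ N) (β : ℝ) (_ : 0 < β), ∀ N', N ≤ N' →
    ∃ g : EuclideanSpace ℂ (Fin 2) → EuclideanSpace ℂ (Fin N'),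
      DifferentiableOn ℂ g (ball 0 1) ∧ ContDiffOn ℂ t g (closedBall 0 1) ∧
      ∀ z : EuclideanSpace ℂ (Fin 2), ‖z‖ = 1 →
        ‖g z‖ ^ 2 = 1 - ‖(β : ℂ) * Complex.exp (z 0)‖ ^ 2 := by
  obtain ⟨N, hN, β, hβ, g, hd, hc, hs⟩ := Pool.Agent.BM.exists_g t
  refine ⟨N, hN, β, hβ, ?_⟩
  intro N' hN'
  induction N', hN' using Nat.le_induction with
  | base =>
    have h1 : ball (0 : EuclideanSpace ℂ (Fin 2)) 1 = {z | ‖z‖ < 1} := by
      ext z; simp
    have h2 : closedBall (0 : EuclideanSpace ℂ (Fin 2)) 1 = {z | ‖z‖ ≤ 1} := by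
      ext z; simp
    exact ⟨g, by rw [h1]; exact hd, by rw [h2]; exact hc, fun z hz => hs z hz⟩
  | succ M _ ih =>
    obtain ⟨g, hd, hc, hs⟩ := ih
    let L : EuclideanSpace ℂ (Fin M) →L[ℂ] (Fin (M + 1) → ℂ) :=
      ContinuousLinearMap.pi (Fin.cons 0 (fun j => EuclideanSpace.proj j))
    let L' : EuclideanSpace ℂ (Fin M) →L[ℂ] EuclideanSpace ℂ (Fin (M + 1)) :=
      (PiLp.continuousLinearEquiv 2 ℂ (fun _ : Fin (M + 1) => ℂ)).symm.toContinuousLinearMap.comp L
    have hL : ∀ w, ‖L' w‖ ^ 2 = ‖w‖ ^ 2 := by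
      intro w
      rw [EuclideanSpace.norm_sq_eq (L' w), Fin.sum_univ_succ, EuclideanSpace.norm_sq_eq w]
      have h0 : (L' w) 0 = 0 := rfl
      rw [h0]
      simp only [norm_zero, ne_eq, OfNat.ofNat_ne_zero, not_false_eq_true, zero_pow, zero_add]
      rfl
    refine ⟨fun z => L' (g z), L'.differentiable.comp_differentiableOn hd,
      L'.contDiff.comp_contDiffOn hc, ?_⟩
    intro z hz
    rw [hL]
    exact hs z hz

/-- the map with all its properties -/
theorem exists_map (t : ℕ) : ∃ N₀ : ℕ, 2 ≤ N₀ ∧ ∀ N : ℕ, N₀ ≤ N →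
    ∃ (β : ℝ) (f : EuclideanSpace ℂ (Fin 2) → EuclideanSpace ℂ (Fin (N + 1))), 0 < β ∧
      (∀ z, f z 0 = (β : ℂ) * Complex.exp (z 0)) ∧
      DifferentiableOn ℂ f (ball 0 1) ∧ ContDiffOn ℂ t f (closedBall 0 1) ∧
      (∀ z, ‖z‖ = 1 → ‖f z‖ = 1) ∧ (∀ z, ‖z‖ < 1 → ‖f z‖ < 1) := by
  obtain ⟨N₀, hN₀, β, hβ, h⟩ := pad t
  refine ⟨N₀, hN₀, fun N hN => ?_⟩
  obtain ⟨g, hd, hc, hs⟩ := h N hN
  let e : (Fin (N + 1) → ℂ) ≃L[ℂ] EuclideanSpace ℂ (Fin (N + 1)) :=
    (PiLp.continuousLinearEquiv 2 ℂ (fun _ : Fin (N + 1) => ℂ)).symm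
  let F : EuclideanSpace ℂ (Fin 2) → EuclideanSpace ℂ (Fin (N + 1)) := fun z =>
    e (Fin.cons ((β : ℂ) * Complex.exp (z 0)) (fun j => g z j))
  have hFn : ∀ z, ‖F z‖ ^ 2 = ‖(β : ℂ) * Complex.exp (z 0)‖ ^ 2 + ‖g z‖ ^ 2 := by
    intro z
    rw [EuclideanSpace.norm_sq_eq (F z), Fin.sum_univ_succ, EuclideanSpace.norm_sq_eq (g z)]
    rfl
  have hF0 : ∀ z, F z 0 = (β : ℂ) * Complex.exp (z 0) := fun z => rfl
  have hFd : DifferentiableOn ℂ F (ball 0 1) := by
    refine e.differentiable.comp_differentiableOn ?_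
    rw [differentiableOn_pi]
    intro j
    refine Fin.cases ?_ (fun j => ?_) j
    · have : Differentiable ℂ (fun z : EuclideanSpace ℂ (Fin 2) =>
          (β : ℂ) * Complex.exp (z 0)) := by fun_prop
      exact this.differentiableOn
    · have h2 : Differentiable ℂ (fun w : EuclideanSpace ℂ (Fin N) => w j) := by fun_prop
      exact h2.comp_differentiableOn hd
  have hFc : ContDiffOn ℂ t F (closedBall 0 1) := by
    refine e.contDiff.comp_contDiffOn ?_
    rw [contDiffOn_pi]
    intro j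
    refine Fin.cases ?_ (fun j => ?_) j
    · have : ContDiff ℂ t (fun z : EuclideanSpace ℂ (Fin 2) =>
          (β : ℂ) * Complex.exp (z 0)) := by fun_prop
      exact this.contDiffOn
    · have h2 : ContDiff ℂ t (fun w : EuclideanSpace ℂ (Fin N) => w j) := by fun_prop
      exact h2.comp_contDiffOn hc
  have hF1 : ∀ z, ‖z‖ = 1 → ‖F z‖ = 1 := by
    intro z hz
    have h1 := hFn z
    rw [hs z hz] at h1
    have h2 : ‖F z‖ ^ 2 = 1 := by rw [h1]; ring
    have h3 := norm_nonneg (F z)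
    nlinarith
  have hcl : closure (ball (0 : EuclideanSpace ℂ (Fin 2)) 1) = closedBall 0 1 :=
    closure_ball 0 one_ne_zero
  have hle : ∀ z, ‖z‖ ≤ 1 → ‖F z‖ ≤ 1 := by
    intro z hz
    have hdc : DiffContOnCl ℂ F (ball (0 : EuclideanSpace ℂ (Fin 2)) 1) :=
      ⟨hFd, by rw [hcl]; exact hFc.continuousOn⟩
    refine Complex.norm_le_of_forall_mem_frontier_norm_le isBounded_ball hdc ?_ ?_
    · intro w hw
      rw [frontier_ball 0 one_ne_zero] at hw
      exact (hF1 w (by simpa using hw)).le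
    · rw [hcl]; simpa using hz
  refine ⟨β, F, hβ, hF0, hFd, hFc, hF1, ?_⟩
  intro z hz
  refine lt_of_le_of_ne (hle z hz.le) fun heq => ?_
  have hzb : z ∈ ball (0 : EuclideanSpace ℂ (Fin 2)) 1 := by simpa using hz
  have hmax : IsMaxOn (norm ∘ F) (ball (0 : EuclideanSpace ℂ (Fin 2)) 1) z := by
    intro w hw
    change ‖F w‖ ≤ ‖F z‖
    rw [heq]
    exact hle w (le_of_lt (by simpa using hw))
  have hcst := Complex.eqOn_of_isPreconnected_of_isMaxOn_norm
    (convex_ball (0 : EuclideanSpace ℂ (Fin 2)) 1).isPreconnected isOpen_ball hFd hzb hmax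
  have h0 := hcst (mem_ball_self one_pos : (0 : EuclideanSpace ℂ (Fin 2)) ∈ ball 0 1)
  have hx : (WithLp.toLp 2 ![1 / 2, 0] : EuclideanSpace ℂ (Fin 2)) ∈ ball 0 1 := by
    rw [mem_ball_zero_iff, ← sq_lt_one_iff₀ (norm_nonneg _), EuclideanSpace.norm_sq_eq,
      Fin.sum_univ_two]
    norm_num
  have h1 := hcst hx
  have h2 : F 0 = F (WithLp.toLp 2 ![1 / 2, 0]) := by rw [h0, h1]; rfl
  have h3 : (β : ℂ) * Complex.exp 0 = β * Complex.exp (1 / 2) := by
    have := congrArg (fun w : EuclideanSpace ℂ (Fin (N + 1)) => w 0) h2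
    simp only [hF0] at this
    simpa using this
  have hβ' : (β : ℂ) ≠ 0 := by exact_mod_cast hβ.ne'
  have h4 := mul_left_cancel₀ hβ' h3
  have h5 : Real.exp 0 = Real.exp (1 / 2) := by
    have h6 : ((Real.exp 0 : ℝ) : ℂ) = ((Real.exp (1 / 2) : ℝ) : ℂ) := by
      push_cast
      exact h4
    exact_mod_cast h6
  have h6 := Real.exp_injective h5
  norm_num at h6

theorem proper_of {n N : ℕ} (f : EuclideanSpace ℂ (Fin n) → EuclideanSpace ℂ (Fin N))
    (hd : DifferentiableOn ℂ f (ball 0 1)) (hc : ContinuousOn f (closedBall 0 1))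
    (h1 : ∀ z, ‖z‖ = 1 → ‖f z‖ = 1) (hlt : ∀ z, ‖z‖ < 1 → ‖f z‖ < 1) : IsProperBallMap f where
  mapsTo := by
    intro z hz
    rw [mem_ball_zero_iff] at hz ⊢
    exact hlt z hz
  holo := hd
  proper := by
    intro K hK hKc
    have heq : {z : EuclideanSpace ℂ (Fin n) | z ∈ ball 0 1 ∧ f z ∈ K}
        = closedBall 0 1 ∩ f ⁻¹' K := by
      ext z
      constructor
      · rintro ⟨hz1, hz2⟩
        exact ⟨ball_subset_closedBall hz1, hz2⟩
      · rintro ⟨hz1, hz2⟩
        refine ⟨?_, hz2⟩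
        have h3 : ‖f z‖ < 1 := by simpa using hK hz2
        rw [mem_closedBall_zero_iff] at hz1
        rw [mem_ball_zero_iff]
        refine lt_of_le_of_ne hz1 fun h2 => ?_
        rw [h1 z h2] at h3
        exact lt_irrefl _ h3
    rw [heq]
    exact (isCompact_closedBall _ _).of_isClosed_subset
      (hc.preimage_isClosed_of_isClosed isClosed_closedBall hKc.isClosed)
      Set.inter_subset_left

theorem weak_of_rational {n N : ℕ}
    {f : EuclideanSpace ℂ (Fin n) → EuclideanSpace ℂ (Fin N)} (h : IsRational f) :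
    IsWeaklyRational f := by
  obtain ⟨p, q, hq, hf⟩ := h
  refine ⟨p, q, ?_, ?_⟩
  · rintro rfl
    exact hq 0 (mem_closedBall_self zero_le_one) (by simp)
  · intro z hz j
    rw [hf z hz j]
    exact div_mul_cancel₀ _ (hq z (ball_subset_closedBall hz))

theorem not_weak {N : ℕ} {β : ℝ} (hβ : 0 < β)
    {f : EuclideanSpace ℂ (Fin 2) → EuclideanSpace ℂ (Fin N)} (j : Fin N)
    (hf : ∀ z, f z j = (β : ℂ) * Complex.exp (z 0)) : ¬ IsWeaklyRational f := by
  rintro ⟨p, q, hq, hpq⟩
  refine Pool.Agent.BM.fin_not_rational (β := (β : ℂ)) (by exact_mod_cast hβ.ne') q (p j) hq ?_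
  intro z hz
  have hz' : (WithLp.toLp 2 z : EuclideanSpace ℂ (Fin 2)) ∈ ball 0 1 := by
    rw [mem_ball_zero_iff, ← sq_lt_one_iff₀ (norm_nonneg _), EuclideanSpace.norm_sq_eq]
    exact hz
  have h := hpq _ hz' j
  rw [hf] at h
  exact h

/-- **Full answer to Q1 (no).**  For every integer `t ≥ 0` there is `N₀ > 2` such that for every
`N ≥ N₀` there is a proper holomorphic map `f` from the unit ball of `ℂ^2` to the unit ball of
`ℂ^N` which is `C^t` up to the boundary and not rational.  In addition: `f` itself is `C^t` on the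
closed ball, one of its components is `β exp(z_1)` with a real number `β > 0`, and `f` is not even
rational in the weakest sense. -/
theorem result :
    ∀ t : ℕ, ∃ N₀ : ℕ, 2 < N₀ ∧ ∀ N : ℕ, N₀ ≤ N →
      ∃ f : EuclideanSpace ℂ (Fin 2) → EuclideanSpace ℂ (Fin N),
        IsProperBallMap f ∧
        IsCtUpToBoundary t f ∧ ContDiffOn ℝ t f (closedBall 0 1) ∧
        ¬ IsRational f ∧ ¬ IsWeaklyRational f ∧
        ∃ (j : Fin N) (β : ℝ), 0 < β ∧ ∀ z, f z j = (β : ℂ) * Complex.exp (z 0) := by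
  intro t
  obtain ⟨N₀, hN₀, h⟩ := exists_map t
  refine ⟨N₀ + 1, by omega, fun N hN => ?_⟩
  obtain ⟨M, rfl⟩ : ∃ M, N = M + 1 := ⟨N - 1, by omega⟩
  obtain ⟨β, f, hβ, hf0, hd, hc, h1, hlt⟩ := h M (by omega)
  have hcr : ContDiffOn ℝ t f (closedBall 0 1) := hc.restrict_scalars ℝ
  have hw : ¬ IsWeaklyRational f := not_weak hβ 0 hf0
  exact ⟨f, proper_of f hd hc.continuousOn h1 hlt, ctUp t f hcr, hcr,
    fun hr => hw (weak_of_rational hr), hw, 0, β, hβ, hf0⟩

end Pool.Agent.Results.MP_e08233_an.NonRationalSmoothBallMaps
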